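import Pool.Agent.Y278.Rot.HessMain
import Pool.Agent.R988.BM.Amen

/-!
# Contractions which fix a point and the Hessian of the norm at that point
-/

set_option autoImplicit false

namespace Pool.Agent.W39.Proj

open Set Filter Topology Asymptotics

variable {E : Type} [NormedAddCommGroup E] [NormedSpace ℝ E]

/-- second order expansion of the squared norm at the unit vector `x` -/
def Expand (x : E) (f : E →L[ℝ] ℝ) (A : E →L[ℝ] E →L[ℝ] ℝ) : Prop :=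
  ∀ w, (fun t : ℝ => ‖x + t • w‖ ^ 2 - 1 - 2 * t * f w - t ^ 2 * A w w)
    =o[𝓝 0] fun t : ℝ => t ^ 2

lemma diff_small {x : E} {f : E →L[ℝ] ℝ} {A : E →L[ℝ] E →L[ℝ] ℝ} (h : Expand x f A)
    {Q : E →L[ℝ] E} (hQ : ∀ y, ‖Q y‖ ≤ ‖y‖) (hx : Q x = x) (w : E) {ε : ℝ} (hε : 0 < ε) :
    ∀ᶠ t in 𝓝 (0 : ℝ), 2 * t * (f (Q w) - f w) + t ^ 2 * (A (Q w) (Q w) - A w w) ≤ ε * t ^ 2 := by
  have h1 := ((h w).sub (h (Q w))).def hε
  filter_upwards [h1] with t ht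
  have h2 : ‖x + t • Q w‖ ≤ ‖x + t • w‖ := by
    have h3 := hQ (x + t • w)
    rwa [map_add, map_smul, hx] at h3
  have h4 : ‖x + t • Q w‖ ^ 2 ≤ ‖x + t • w‖ ^ 2 := by gcongr
  rw [Real.norm_eq_abs, Real.norm_eq_abs, abs_of_nonneg (sq_nonneg t)] at ht
  have h5 := (abs_le.1 ht).2
  linarith

lemma zero_of_event {a b : ℝ} (h : ∀ᶠ t in 𝓝 (0 : ℝ), 2 * t * a + t ^ 2 * b ≤ 1 * t ^ 2) :
    a = 0 := by
  by_contra ha
  obtain ⟨δ, hδ, h1⟩ := Metric.eventually_nhds_iff.1 h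
  have hab : 0 < |a| := abs_pos.2 ha
  set s : ℝ := min (δ / 2) (|a| / (1 + |b|)) with hs
  have hs0 : 0 < s := lt_min (by linarith) (by positivity)
  have hs1 : s < δ := lt_of_le_of_lt (min_le_left _ _) (by linarith)
  have hs2 : s * (1 + |b|) ≤ |a| := by
    have h2 : s ≤ |a| / (1 + |b|) := min_le_right _ _
    rwa [le_div_iff₀ (by positivity)] at h2
  have hb := neg_abs_le b
  rcases lt_or_gt_of_ne ha with h3 | h3
  · have h4 := h1 (y := -s) (by simpa [abs_of_pos hs0] using hs1)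
    rw [abs_of_neg h3] at hs2
    nlinarith [mul_pos hs0 hs0, mul_pos hs0 (neg_pos.2 h3)]
  · have h4 := h1 (y := s) (by simpa [abs_of_pos hs0] using hs1)
    rw [abs_of_pos h3] at hs2
    nlinarith [mul_pos hs0 hs0, mul_pos hs0 h3]

/-- a contraction which fixes `x` does not increase the Hessian at `x` -/
lemma hess_le {x : E} {f : E →L[ℝ] ℝ} {A : E →L[ℝ] E →L[ℝ] ℝ} (h : Expand x f A)
    {Q : E →L[ℝ] E} (hQ : ∀ y, ‖Q y‖ ≤ ‖y‖) (hx : Q x = x) (w : E) :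
    A (Q w) (Q w) ≤ A w w := by
  have ha : f (Q w) - f w = 0 := zero_of_event (diff_small h hQ hx w one_pos)
  refine le_of_forall_pos_le_add fun ε hε => ?_
  have h1 := diff_small h hQ hx w hε
  rw [ha] at h1
  obtain ⟨δ, hδ, h2⟩ := Metric.eventually_nhds_iff.1 h1
  have h3 := h2 (y := δ / 2) (by
    rw [Real.dist_eq, sub_zero, abs_of_pos (by linarith)]
    linarith)
  have h4 : 0 < (δ / 2) ^ 2 := by positivity
  nlinarith

/-- a norm-one projection which fixes `x` is orthogonal for the Hessian at `x` -/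
lemma hess_orth {x : E} {f : E →L[ℝ] ℝ} {A : E →L[ℝ] E →L[ℝ] ℝ} (h : Expand x f A)
    (hs : ∀ v w, A v w = A w v) {Q : E →L[ℝ] E} (hQ : ∀ y, ‖Q y‖ ≤ ‖y‖) (hx : Q x = x)
    {y k : E} (hy : Q y = y) (hk : Q k = 0) : A y k = 0 := by
  by_contra hne
  have h1 : ∀ s : ℝ, 0 ≤ 2 * s * A y k + s ^ 2 * A k k := by
    intro s
    have h2 := hess_le h hQ hx (y + s • k)
    have h3 : Q (y + s • k) = y := by rw [map_add, map_smul, hy, hk, smul_zero, add_zero]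
    rw [h3] at h2
    simp only [map_add, map_smul, add_apply, smul_apply, smul_eq_mul] at h2
    rw [hs k y] at h2
    nlinarith
  have h4 : ∀ s : ℝ, 2 * s * (-(A y k)) + s ^ 2 * (-(A k k)) ≤ 0 := fun s => by
    nlinarith [h1 s]
  have h5 : -(A y k) = 0 := by
    refine zero_of_event (b := -(A k k)) (Eventually.of_forall fun t => ?_)
    nlinarith [h4 t, sq_nonneg t]
  exact hne (by linarith)

/-- bounded families of real numbers converge along ultrafilters -/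
lemma ultra_lim {ι : Type} (𝒰 : Ultrafilter ι) (F : ι → ℝ) {M : ℝ} (hF : ∀ i, |F i| ≤ M) :
    ∃ L : ℝ, Tendsto F 𝒰 (𝓝 L) := by
  have h1 : (𝒰.map F : Filter ℝ) ≤ 𝓟 (Icc (-M) M) := by
    rw [Filter.le_principal_iff, Ultrafilter.coe_map, Filter.mem_map]
    exact Filter.mem_of_superset Filter.univ_mem fun i _ => abs_le.1 (hF i)
  obtain ⟨L, _, hL⟩ := isCompact_Icc.ultrafilter_le_nhds (𝒰.map F) h1
  exact ⟨L, hL⟩

/-- Cauchy-Schwarz in the crude form which is needed -/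
lemma form_bound {A : E →L[ℝ] E →L[ℝ] ℝ} (hs : ∀ v w, A v w = A w v) {c C : ℝ} (hc : 0 < c)
    (hA : ∀ w, c * ‖w‖ ^ 2 ≤ A w w ∧ A w w ≤ C * ‖w‖ ^ 2) (v w : E) :
    |A v w| ≤ (|C| * (‖v‖ + ‖w‖) ^ 2) / 4 := by
  have h1 := Pool.Agent.Y278.Rot.polar hs v w
  have h2 := hA (v + w)
  have h3 := hA (v - w)
  have h4 : ‖v + w‖ ^ 2 ≤ (‖v‖ + ‖w‖) ^ 2 := by
    gcongr
    exact norm_add_le v w
  have h5 : ‖v - w‖ ^ 2 ≤ (‖v‖ + ‖w‖) ^ 2 := by
    gcongr
    exact norm_sub_le v w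
  have hC := le_abs_self C
  have h6 : A (v + w) (v + w) ≤ |C| * (‖v‖ + ‖w‖) ^ 2 := by
    refine h2.2.trans ?_
    have h7 : C * ‖v + w‖ ^ 2 ≤ |C| * ‖v + w‖ ^ 2 := by gcongr
    exact h7.trans (by gcongr)
  have h8 : A (v - w) (v - w) ≤ |C| * (‖v‖ + ‖w‖) ^ 2 := by
    refine h3.2.trans ?_
    have h7 : C * ‖v - w‖ ^ 2 ≤ |C| * ‖v - w‖ ^ 2 := by gcongr
    exact h7.trans (by gcongr)
  have h9 : 0 ≤ A (v + w) (v + w) := le_trans (by positivity) h2.1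
  have h10 : 0 ≤ A (v - w) (v - w) := le_trans (by positivity) h3.1
  rw [h1, abs_le]
  constructor <;> linarith

/-- the limit form -/
theorem limit_form {ι : Type} (𝒰 : Ultrafilter ι) (A : ι → E →L[ℝ] E →L[ℝ] ℝ) {c C : ℝ}
    (hc : 0 < c) (hs : ∀ i v w, A i v w = A i w v)
    (hA : ∀ i w, c * ‖w‖ ^ 2 ≤ A i w w ∧ A i w w ≤ C * ‖w‖ ^ 2) :
    ∃ β : E → E → ℝ, (∀ v w, Tendsto (fun i => A i v w) 𝒰 (𝓝 (β v w))) ∧
      (∀ x y, β x y = β y x) ∧ (∀ x y z, β (x + y) z = β x z + β y z) ∧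
      (∀ (r : ℝ) x y, β (r • x) y = r * β x y) ∧
      (∀ x, c * ‖x‖ ^ 2 ≤ β x x) ∧ ∀ x, β x x ≤ C * ‖x‖ ^ 2 := by
  have h1 : ∀ v w, ∃ L : ℝ, Tendsto (fun i => A i v w) 𝒰 (𝓝 L) := fun v w =>
    ultra_lim 𝒰 _ fun i => form_bound (hs i) hc (hA i) v w
  choose β hβ using h1
  refine ⟨β, hβ, fun x y => ?_, fun x y z => ?_, fun r x y => ?_, fun x => ?_, fun x => ?_⟩
  · refine tendsto_nhds_unique (hβ x y) ?_
    have h2 := hβ y x
    simp only [hs _ y x] at h2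
    exact h2
  · refine tendsto_nhds_unique (hβ (x + y) z) ?_
    have h2 := (hβ x z).add (hβ y z)
    refine h2.congr fun i => ?_
    rw [map_add, add_apply]
  · refine tendsto_nhds_unique (hβ (r • x) y) ?_
    have h2 := (hβ x y).const_mul r
    refine h2.congr fun i => ?_
    rw [map_smul, smul_apply, smul_eq_mul]
  · exact ge_of_tendsto (hβ x x) (Eventually.of_forall fun i => (hA i x).1)
  · exact le_of_tendsto (hβ x x) (Eventually.of_forall fun i => (hA i x).2)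

end Pool.Agent.W39.Proj
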