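import Pool.Agent.W39.Proj.Core
import Pool.Agent.Results.MP_cc72b1_an.HilbertianHessian
import Pool.Agent.Results.MP_cc72b1_an.OrthogonalSplitting

/-!
# Norm-one projections and finite rank perturbations of the identity on Hilbertian transitive spaces
-/

set_option autoImplicit false

namespace Pool.Agent.W39.Proj

open Set Filter Topology Asymptotics
open scoped InnerProductSpace

variable {E : Type} [NormedAddCommGroup E] [NormedSpace ℝ E]

/-- the projection case -/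
theorem proj_case [CompleteSpace E] [TopologicalSpace.SeparableSpace E]
    {H : Type} [NormedAddCommGroup H] [InnerProductSpace ℝ H] (Φ : E ≃L[ℝ] H)
    (hE : ¬ FiniteDimensional ℝ E)
    (htr : ∀ x y : E, ‖x‖ = 1 → ‖y‖ = 1 → ∃ T : E ≃ₗᵢ[ℝ] E, T x = y)
    (P : E →L[ℝ] E) (hP2 : ∀ x, P (P x) = P x) (hPn : ∀ x, ‖P x‖ ≤ ‖x‖) (hP1 : P ≠ 1)
    (hFI : ∀ S : Finset (E ≃ₗᵢ[ℝ] E), ∃ x : E, x ≠ 0 ∧ ∀ g ∈ S, P (g x) = g x) :
    ∃ (K : Type) (_ : NormedAddCommGroup K) (_ : InnerProductSpace ℝ K)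
      (_ : CompleteSpace K), Nonempty (E ≃ₗᵢ[ℝ] K) := by
  obtain ⟨c, C, f, A, hc, hA, -⟩ :=
    Pool.Agent.Results.MP_cc72b1_an.HilbertianHessian.result E H ⟨Φ⟩ htr
  -- unit vectors fixed by finitely many conjugates
  have hFI1 : ∀ S : Finset (E ≃ₗᵢ[ℝ] E), ∃ x : E, ‖x‖ = 1 ∧ ∀ g ∈ S, P (g x) = g x := by
    intro S
    obtain ⟨x, hx0, hx⟩ := hFI S
    have hn : ‖x‖ ≠ 0 := norm_ne_zero_iff.2 hx0
    refine ⟨‖x‖⁻¹ • x, by rw [norm_smul, norm_inv, norm_norm, inv_mul_cancel₀ hn], ?_⟩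
    intro g hg
    rw [map_smul, map_smul, hx g hg]
  choose ξ hξ1 hξ using hFI1
  obtain ⟨β, hβ, hsymm, hadd, hsmul, hlow, hupp⟩ :=
    limit_form (Ultrafilter.of (atTop : Filter (Finset (E ≃ₗᵢ[ℝ] E)))) (fun S => A (ξ S)) hc
      (fun S => (hA (ξ S) (hξ1 S)).1) (fun S => (hA (ξ S) (hξ1 S)).2.1)
  -- orthogonality
  have horth : ∀ (T : E ≃ₗᵢ[ℝ] E) (y k : E), P y = y → P k = 0 → β (T y) (T k) = 0 := by
    intro T y k hy hk
    refine tendsto_nhds_unique (hβ (T y) (T k)) ?_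
    have h1 : ∀ᶠ S in (atTop : Filter (Finset (E ≃ₗᵢ[ℝ] E))), T.symm ∈ S := by
      filter_upwards [eventually_ge_atTop ({T.symm} : Finset (E ≃ₗᵢ[ℝ] E))] with S hS
      exact hS (Finset.mem_singleton_self _)
    have h2 : ∀ᶠ S in ((Ultrafilter.of (atTop : Filter (Finset (E ≃ₗᵢ[ℝ] E)))) :
        Filter (Finset (E ≃ₗᵢ[ℝ] E))), T.symm ∈ S := h1.filter_mono (Ultrafilter.of_le _)
    refine tendsto_const_nhds.congr' ?_
    filter_upwards [h2] with S hS
    symm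
    set Q : E →L[ℝ] E := (T.toContinuousLinearEquiv : E →L[ℝ] E) ∘L P ∘L
      (T.symm.toContinuousLinearEquiv : E →L[ℝ] E) with hQ
    have hQa : ∀ z, Q z = T (P (T.symm z)) := fun z => rfl
    refine hess_orth (hA (ξ S) (hξ1 S)).2.2.1 (hA (ξ S) (hξ1 S)).1 (Q := Q) (fun z => ?_) ?_ ?_ ?_
    · rw [hQa, T.norm_map]
      refine (hPn _).trans ?_
      rw [T.symm.norm_map]
    · rw [hQa, hξ S _ hS, T.apply_symm_apply]
    · rw [hQa, T.symm_apply_apply, hy]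
    · rw [hQa, T.symm_apply_apply, hk, map_zero]
  obtain ⟨K, i1, i2, Ψ, hΨ⟩ := Pool.R988.BM.exists_hilb β hsymm hadd hsmul hc hlow hupp
  have hin : ∀ x y, ⟪Ψ x, Ψ y⟫_ℝ = β x y := by
    intro x y
    have h1 := norm_add_sq_real (Ψ x) (Ψ y)
    rw [← map_add, hΨ, hΨ, hΨ, hadd, hsymm x (x + y), hsymm y (x + y), hadd, hadd,
      hsymm y x] at h1
    linarith
  -- the range of `P`
  set W : Submodule ℝ E := LinearMap.ker ((P - 1 : E →L[ℝ] E) : E →ₗ[ℝ] E) with hW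
  have hWm : ∀ x, x ∈ W ↔ P x = x := by
    intro x
    rw [hW, LinearMap.mem_ker]
    show P x - x = 0 ↔ _
    rw [sub_eq_zero]
  refine ((Pool.Agent.Results.MP_cc72b1_an.OrthogonalSplitting.result E hE ⊤
    (fun x y hx hy => ?_)).1).2 ⟨K, i1, i2, Ψ, W, ?_, ?_, ?_, ?_⟩
  · obtain ⟨T, hT⟩ := htr x y hx hy
    exact ⟨T, Subgroup.mem_top _, hT⟩
  · exact (P - 1 : E →L[ℝ] E).isClosed_ker
  · intro h
    obtain ⟨x, hx0, hx⟩ := hFI {1}
    have h1 : x ∈ W := (hWm x).2 (hx 1 (Finset.mem_singleton_self _))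
    rw [h] at h1
    exact hx0 ((Submodule.mem_bot ℝ).1 h1)
  · intro h
    apply hP1
    ext x
    have h1 : x ∈ W := by rw [h]; exact Submodule.mem_top
    exact (hWm x).1 h1
  · intro T _ w hw v hv
    have hw1 := (hWm w).1 hw
    have h1 := hv (P v) ((hWm _).2 (hP2 v))
    rw [hin] at h1
    have hk : P (v - P v) = 0 := by rw [map_sub, hP2, sub_self]
    have h2 := horth 1 (P v) (v - P v) (hP2 v) hk
    have h3 : β (P v) v = β (P v) (P v) + β (P v) (v - P v) := by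
      rw [hsymm (P v) (P v), hsymm (P v) (v - P v), ← hadd, add_sub_cancel, hsymm]
    have h4 : β (P v) (P v) = 0 := by
      have h5 : β (P v) (v - P v) = 0 := h2
      rw [h1, h5, add_zero] at h3
      exact h3.symm
    have h6 : P v = 0 := by
      have h7 := hlow (P v)
      rw [h4] at h7
      have h8 : ‖P v‖ ^ 2 ≤ 0 := by
        by_contra hcon
        push Not at hcon
        nlinarith
      have h9 : ‖P v‖ = 0 := by
        have := sq_nonneg ‖P v‖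
        exact pow_eq_zero_iff two_ne_zero |>.1 (le_antisymm h8 this)
      exact norm_eq_zero.1 h9
    rw [hin]
    exact horth T w v hw1 h6

/-- finitely many images of a subspace of finite codimension meet -/
theorem finite_inter (hE : ¬ FiniteDimensional ℝ E) (N : E →L[ℝ] E)
    (hN : FiniteDimensional ℝ (LinearMap.range (N : E →ₗ[ℝ] E))) (S : Finset (E ≃ₗᵢ[ℝ] E)) :
    ∃ x : E, x ≠ 0 ∧ ∀ g ∈ S, N (g x) = 0 := by
  by_contra hcon
  push Not at hcon
  apply hE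
  let L : E →ₗ[ℝ] (S → LinearMap.range (N : E →ₗ[ℝ] E)) :=
    LinearMap.pi fun g => (LinearMap.rangeRestrict (N : E →ₗ[ℝ] E)) ∘ₗ
      ((g : E ≃ₗᵢ[ℝ] E).toLinearEquiv : E →ₗ[ℝ] E)
  have hL : Function.Injective L := by
    rw [← LinearMap.ker_eq_bot, LinearMap.ker_eq_bot']
    intro x hx
    by_contra hx0
    obtain ⟨g, hg, hg1⟩ := hcon x hx0
    have h1 := congrFun hx ⟨g, hg⟩
    have h2 : ((L x ⟨g, hg⟩ : LinearMap.range (N : E →ₗ[ℝ] E)) : E) = N (g x) := rfl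
    rw [h1] at h2
    exact hg1 h2.symm
  exact FiniteDimensional.of_injective L hL

end Pool.Agent.W39.Proj
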